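import Pool.Agent.X92.Mom2

/-!
# Moments of the Fourier extension inequality for the paraboloid over one-parameter stretchings

For `f` in `L^q` of the square put `f_s(x₁, x₂) = f(x₁, s x₂)`, `s ∈ [a, b] ⊂ (0, ∞)`. In the full
conjectured range `q > 3` all moments of order `p < 2` in `s` of the quantity `‖E f_s‖_q^q` are
bounded by `C ‖f‖_q^{qp}`. More generally this is proved with a growing weight `(1 + |ξ₃|)^γ`
inside the integral over the frequencies and for averages over `s` with respect to an arbitrary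
measure `μ` with `μ([x, x + r]) ≤ A r^α`, in the range `p (1 + γ) < 1 + α`,
`q > 2 + 2 (1 + γ)/(1 + α)`.
-/

open MeasureTheory Set
open scoped ENNReal

noncomputable section

namespace Pool.Agent.Results.MP_5ab805_an.DilateMoments

/-- The Fourier extension operator of the paraboloid `ξ₃ = x₁² + x₂²`:
`E f(ξ) = ∫ e^{-i Φ(x)·ξ} f(x) dx`, `Φ(x) = (x₁, x₂, x₁² + x₂²)`. -/
def extOp (f : ℝ × ℝ → ℂ) (ξ : ℝ × ℝ × ℝ) : ℂ :=
  ∫ x : ℝ × ℝ, Complex.exp (-(Complex.I *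
    ((x.1 * ξ.1 + x.2 * ξ.2.1 + (x.1 ^ 2 + x.2 ^ 2) * ξ.2.2 : ℝ) : ℂ))) * f x

/-- Let `0 ≤ γ < α ≤ 1`, `0 < p < (1 + α)/(1 + γ)`, `q > 2 + 2 (1 + γ)/(1 + α)`, `0 < a ≤ b` and
`A ≥ 0`. There is `C` such that for every measure `μ` on `ℝ` with `μ([x, x + r]) ≤ A r^α` for all
`x` and `r > 0` and every `f` supported in `[-1,1]²`,
`∫_{[a,b]} (∫ (1 + |ξ₃|)^γ |E f_s(ξ)|^q dξ)^p dμ(s) ≤ C (∫ |f|^q)^p`.
For Lebesgue measure and `γ = 0` this holds for all `q > 3` and all `p < 2`. -/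
theorem result (α γ p q A a b : ℝ) (hA : 0 ≤ A) (hα : α ≤ 1) (hγ : 0 ≤ γ) (hγα : γ < α) (hp : 0 < p)
    (hpα : p < (1 + α) / (1 + γ)) (hq : 2 + 2 * (1 + γ) / (1 + α) < q) (ha : 0 < a) (hab : a ≤ b) :
    ∃ C : ℝ, 0 < C ∧ ∀ μ : Measure ℝ,
      (∀ x r : ℝ, 0 < r → μ (Icc x (x + r)) ≤ ENNReal.ofReal (A * r ^ α)) →
      ∀ f : ℝ × ℝ → ℂ, AEStronglyMeasurable f volume →
      (∀ x : ℝ × ℝ, (1 < |x.1| ∨ 1 < |x.2|) → f x = 0) →
      ∫⁻ s in Icc a b, (∫⁻ ξ : ℝ × ℝ × ℝ, ENNReal.ofReal ((1 + |ξ.2.2|) ^ γ) *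
          ‖extOp (fun x => f (x.1, s * x.2)) ξ‖ₑ ^ q) ^ p ∂μ ≤
        ENNReal.ofReal C * (∫⁻ x : ℝ × ℝ, ‖f x‖ₑ ^ q) ^ p := by
  have hγ1 : 0 < 1 + γ := by linarith
  rw [lt_div_iff₀ hγ1] at hpα
  obtain ⟨C, hC, h⟩ := X92.Mom.mom2 α γ p q A a b hA hα hγ hγα hp hpα hq ha hab
  refine ⟨C, hC, ?_⟩
  intro μ hμ f hf hsupp
  obtain ⟨g, hgm, hgs, hfg, hE⟩ := X92.Ext.exists_rep f hf hsupp
  have hnorm : ∫⁻ x : ℝ × ℝ, ‖f x‖ₑ ^ q = ∫⁻ x : ℝ × ℝ, ‖g x‖ₑ ^ q := by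
    refine lintegral_congr_ae ?_
    filter_upwards [hfg] with x hx
    rw [hx]
  have h1 := h μ hμ g ⟨hgm, fun x hx => hgs x (Or.inl hx), fun x hx => hgs x (Or.inr hx)⟩
  rw [hnorm]
  refine le_trans (le_of_eq ?_) h1
  refine setLIntegral_congr_fun measurableSet_Icc (fun s hs => ?_)
  have hs0 : 0 < s := lt_of_lt_of_le ha hs.1
  have h3 : ∀ ξ : ℝ × ℝ × ℝ, extOp (fun x => f (x.1, s * x.2)) ξ =
      Pool.Agent.H147R3.PE.ext (Pool.Agent.H147R3.PE.dil s g) ξ := by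
    intro ξ
    have h2 : extOp (fun x => f (x.1, s * x.2)) ξ = X92.Ext.EL 1 (fun x => f (X92.Ext.str s x)) ξ := by
      unfold extOp X92.Ext.EL X92.Ext.str
      simp only [one_mul]
    rw [h2, hE s hs0 1 ξ]
    unfold Pool.Agent.H147R3.PE.ext X92.Ext.EL X92.Ext.str Pool.Agent.H147R3.PE.dil
    congr 1
    ext x
    congr 2
    push_cast
    ring
  simp only [h3]
  rfl

end Pool.Agent.Results.MP_5ab805_an.DilateMoments
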