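import Pool.Agent.X92.Dir9

/-!
# The extension inequality for functions with a little smoothness in one direction

Full range `3 < q < 4`: `‖E f‖_q ≤ C (‖f‖_q + |f|)` where `|f|` measures `σ > (4 - q)/(2q)`
derivatives of `f` in the direction `x₁` only, in `L^q`; no regularity in `x₂`.
-/

open MeasureTheory Set
open scoped ENNReal

noncomputable section

namespace Pool.Agent.Results.MP_5ab805_an.DirectionalSmoothness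

/-- The Fourier extension operator of the paraboloid `ξ₃ = x₁² + x₂²`:
`E f(ξ) = ∫ e^{-i Φ(x)·ξ} f(x) dx`, `Φ(x) = (x₁, x₂, x₁² + x₂²)`. -/
def extOp (f : ℝ × ℝ → ℂ) (ξ : ℝ × ℝ × ℝ) : ℂ :=
  ∫ x : ℝ × ℝ, Complex.exp (-(Complex.I *
    ((x.1 * ξ.1 + x.2 * ξ.2.1 + (x.1 ^ 2 + x.2 ^ 2) * ξ.2.2 : ℝ) : ℂ))) * f x

theorem result (q a : ℝ) (hq : 3 < q) (hq' : q < 4) (ha : (4 - q) / 2 < a) :
    ∃ C : ℝ, 0 < C ∧ ∀ (f : ℝ × ℝ → ℂ) (D : ℝ≥0∞), AEStronglyMeasurable f →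
      (∀ x : ℝ × ℝ, (1 < |x.1| ∨ 1 < |x.2|) → f x = 0) →
      (∀ h : ℝ, |h| ≤ 1 →
        ∫⁻ x : ℝ × ℝ, ‖f (x.1 + h, x.2) - f x‖ₑ ^ q ≤ D * ENNReal.ofReal (|h| ^ a)) →
      ∫⁻ ξ : ℝ × ℝ × ℝ, ‖extOp f ξ‖ₑ ^ q ≤ ENNReal.ofReal C * (D + ∫⁻ x, ‖f x‖ₑ ^ q) := by
  obtain ⟨C, hC, h⟩ := X92.Ext.dir_final q a hq hq' ha
  refine ⟨C, hC, ?_⟩
  intro f D hf hfs hfD
  refine le_trans (le_of_eq ?_) (h f D hf hfs hfD)
  refine lintegral_congr (fun ξ => ?_)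
  have : extOp f ξ = X92.Ext.EL 1 f ξ := by
    unfold extOp X92.Ext.EL
    simp only [one_mul]
  rw [this]

end Pool.Agent.Results.MP_5ab805_an.DirectionalSmoothness
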