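import Mathlib
import Pool.Agent.X331.SP.Para4
set_option autoImplicit false

/-!
# The extension problem for the paraboloid in `ℝ³` modulo the integers

Let `U` be a measurable set in the unit disc of `ℝ²`, with nonempty interior, whose vertical
sections are unions of at most `N` intervals (for instance any convex measurable `U` with nonempty
interior), and let `E f(ξ) = ∫_U e^{-iΦ(x)·ξ} f(x) dx`, `Φ(x) = (x₁, x₂, x₁² + x₂²)`.
Call a real function `f` on `U` *good* if `E f` is in `L^p(ℝ³)` for every `p > 3` (the full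
conjectured range), if `f` is in `L^q(U)` for every `q < ∞` and if `∫_U Ψ(|f|) < ∞`, where `Ψ` is an
increasing function fixed in advance (it may grow as fast as one likes, so that `f` is as close to
bounded as one wants).

We prove that nothing can be seen modulo a lattice of `ℝ`: every measurable real function on `U` is
good after adding a suitable function with values in `ℤT`; every measurable function with values in
the unit circle is `e^{2πih}` with `h` good; every integer-valued measurable function is congruent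
modulo `m` to a good integer-valued function. All norms of `E` of the resulting function in `L^r`,
`p₀ ≤ r ≤ ∞`, can be made arbitrarily small here.

It follows that the estimate `‖E g‖_p ≤ C ‖g‖_∞` for one `p > 3` is equivalent to the stability of
good functions under one single periodic function, e.g. `cos`, or `(-1)^k` for integer-valued
functions: let `F` be any bounded Borel function on `ℝ` (or any function on `ℤ`) which is periodic
and not constant. If `E (F ∘ h)` is in `L^p` for every good `h` (a qualitative statement), then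
`‖E g‖_p ≤ C ‖g‖_∞` for all bounded `g`.
-/

namespace Pool.Agent.Results.MP_5ab805_an.IntegerShifts

open MeasureTheory Metric
open scoped ENNReal RealInnerProductSpace

/-- Euclidean space -/
abbrev E (n : ℕ) := EuclideanSpace ℝ (Fin n)

/-- the parametrization `Φ(x) = (x₁, x₂, x₁² + x₂²)` of the paraboloid -/
noncomputable def Phi (x : E 2) : E 3 := !₂[x 0, x 1, x 0 ^ 2 + x 1 ^ 2]

/-- the Fourier extension operator `E f(ξ) = ∫_U e^{-iΦ(x)·ξ} f(x) dx` -/
noncomputable def extOp (U : Set (E 2)) (f : E 2 → ℂ) (ξ : E 3) : ℂ :=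
  ∫ x in U, Complex.exp (-(Complex.I * (⟪Phi x, ξ⟫ : ℝ))) * f x

/-- The domains: measurable sets in the closed unit disc with nonempty interior all of whose
vertical sections are unions of `N` intervals (order-connected sets, possibly empty). -/
structure Domain (N : ℕ) (U : Set (E 2)) : Prop where
  meas : MeasurableSet U
  int : (interior U).Nonempty
  bd : U ⊆ closedBall 0 1
  sec : ∀ u : ℝ, ∃ I : Fin N → Set ℝ, (∀ j, (I j).OrdConnected) ∧
    {v : ℝ | !₂[u, v] ∈ U} = ⋃ j, I j

/-- The extension estimate from `L^∞` to `L^p`: `‖E g‖_p ≤ C ‖g‖_∞`. -/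
def ExtAt (U : Set (E 2)) (p : ℝ) : Prop := ∃ C : ℝ, 0 ≤ C ∧
  ∀ g : E 2 → ℂ, Measurable g → ∀ M : ℝ, (∀ x, ‖g x‖ ≤ M) →
    MemLp (extOp U g) (ENNReal.ofReal p) ∧
      eLpNorm (extOp U g) (ENNReal.ofReal p) volume ≤ ENNReal.ofReal (C * M)

/-- The good real functions on `U`: measurable, `∫_U Ψ(|f|) < ∞`, in `L^q(U)` for all `q < ∞`, and
with `E f` in `L^p(ℝ³)` for all `p > 3`. -/
def Good (U : Set (E 2)) (Ψ : ℝ → ℝ) (f : E 2 → ℝ) : Prop :=
  Measurable f ∧ ∫⁻ x in U, ENNReal.ofReal (Ψ |f x|) < ⊤ ∧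
    (∀ q : ℝ≥0∞, q ≠ ⊤ → MemLp f q (volume.restrict U)) ∧
    ∀ p : ℝ, 3 < p → MemLp (extOp U fun x => (f x : ℂ)) (ENNReal.ofReal p)

/-- `E f` has norm at most `η` in all `L^r(ℝ³)`, `p₀ ≤ r ≤ ∞`. -/
def Small (U : Set (E 2)) (p₀ η : ℝ) (f : E 2 → ℝ) : Prop :=
  ∀ r : ℝ≥0∞, ENNReal.ofReal p₀ ≤ r →
    eLpNorm (extOp U fun x => (f x : ℂ)) r volume ≤ ENNReal.ofReal η

/-- Every measurable real function is good modulo `ℤT`. -/
def Shifts (U : Set (E 2)) : Prop := ∀ Ψ : ℝ → ℝ, Monotone Ψ → ∀ p₀ : ℝ, 3 < p₀ →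
  ∀ η : ℝ, 0 < η → ∀ T : ℝ, 0 < T → ∀ f : E 2 → ℝ, Measurable f →
  ∃ k : E 2 → ℤ, Measurable k ∧ Good U Ψ (fun x => f x + k x * T) ∧
    Small U p₀ η fun x => f x + k x * T

/-- Every measurable unimodular function is the exponential of a good function. -/
def Phases (U : Set (E 2)) : Prop := ∀ Ψ : ℝ → ℝ, Monotone Ψ → ∀ p₀ : ℝ, 3 < p₀ →
  ∀ η : ℝ, 0 < η → ∀ u : E 2 → ℂ, Measurable u → (∀ x, ‖u x‖ = 1) →
  ∃ h : E 2 → ℝ, Good U Ψ h ∧ Small U p₀ η h ∧
    ∀ x, u x = Complex.exp (2 * Real.pi * h x * Complex.I)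

/-- Every integer-valued measurable function is congruent modulo `m` to a good one. -/
def Residues (U : Set (E 2)) : Prop := ∀ Ψ : ℝ → ℝ, Monotone Ψ → ∀ p₀ : ℝ, 3 < p₀ →
  ∀ η : ℝ, 0 < η → ∀ m : ℕ, 0 < m → ∀ j : E 2 → ℤ, Measurable j →
  ∃ k : E 2 → ℤ, Measurable k ∧ (∀ x, k x ≡ j x [ZMOD m]) ∧
    Good U Ψ (fun x => (k x : ℝ)) ∧ Small U p₀ η fun x => (k x : ℝ)

/-- The estimate is the stability of good functions under one periodic function. -/
def RealCriterion (U : Set (E 2)) : Prop := ∀ Ψ : ℝ → ℝ, Monotone Ψ → ∀ F : ℝ → ℂ, Measurable F →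
  (∃ M : ℝ, ∀ t, ‖F t‖ ≤ M) → ∀ T : ℝ, 0 < T → (∀ t, F (t + T) = F t) → (∃ s t, F s ≠ F t) →
  ∀ p : ℝ, 3 < p → (ExtAt U p ↔
    ∀ h : E 2 → ℝ, Good U Ψ h → MemLp (extOp U fun x => F (h x)) (ENNReal.ofReal p))

/-- The estimate is the stability of good integer-valued functions under one periodic function. -/
def IntegerCriterion (U : Set (E 2)) : Prop := ∀ Ψ : ℝ → ℝ, Monotone Ψ → ∀ F : ℤ → ℂ,
  ∀ m : ℕ, 0 < m → (∀ k, F (k + m) = F k) → (∃ i j, F i ≠ F j) →
  ∀ p : ℝ, 3 < p → (ExtAt U p ↔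
    ∀ k : E 2 → ℤ, Measurable k → Good U Ψ (fun x => (k x : ℝ)) →
      MemLp (extOp U fun x => F (k x)) (ENNReal.ofReal p))

theorem dom {N : ℕ} {U : Set (E 2)} (h : Domain N U) : Pool.Agent.X331.SP.Para.Dom N U :=
  ⟨h.meas, h.int, h.bd, h.sec⟩

theorem shifts {N : ℕ} {U : Set (E 2)} (hU : Domain N U) : Shifts U := by
  intro Ψ hΨ p₀ hp₀ η hη T hT f hf
  obtain ⟨k, hk, h1, h2, h3, h4⟩ := Pool.Agent.X331.SP.Para.shiftsU (dom hU) (fun x => f x / T)
    (hf.div_const T) (fun t => Ψ (T * t)) (fun s t hst => hΨ (by gcongr)) p₀ hp₀ (η / T)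
    (by positivity)
  have e1 : ∀ x, f x + k x * T = T * (f x / T + k x) := fun x => by field_simp
  have hkR : Measurable fun x => ((k x : ℤ) : ℝ) := measurable_from_top.comp hk
  have e2 : extOp U (fun x => ((f x + k x * T : ℝ) : ℂ)) =
      fun ξ => (T : ℂ) * extOp U (fun x => ((f x / T + k x : ℝ) : ℂ)) ξ := by
    funext ξ
    unfold extOp
    rw [← integral_const_mul]
    congr 1
    funext x
    simp only
    rw [e1 x]
    push_cast
    ring
  refine ⟨k, hk, ⟨hf.add (hkR.mul_const T), ?_, ?_, ?_⟩, ?_⟩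
  · refine lt_of_le_of_lt (le_of_eq ?_) h1
    refine lintegral_congr fun x => ?_
    simp only
    rw [e1 x, abs_mul, abs_of_pos hT]
  · intro q hq
    have h5 := (h2 q hq).const_mul T
    simp_rw [e1]
    exact h5
  · intro p hp
    rw [e2]
    exact (h3 p hp).const_mul _
  · intro r hr
    rw [e2]
    have h5 := h4 r hr
    have h6 : eLpNorm (fun ξ => (T : ℂ) * extOp U (fun x => ((f x / T + k x : ℝ) : ℂ)) ξ) r
        volume = ‖(T : ℂ)‖ₑ * eLpNorm (extOp U (fun x => ((f x / T + k x : ℝ) : ℂ))) r volume :=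
      eLpNorm_const_smul (T : ℂ) _ r volume
    rw [h6]
    have h7 : ‖(T : ℂ)‖ₑ = ENNReal.ofReal T := by
      rw [← ofReal_norm, Complex.norm_real, Real.norm_eq_abs, abs_of_pos hT]
    rw [h7]
    calc ENNReal.ofReal T * eLpNorm (extOp U (fun x => ((f x / T + k x : ℝ) : ℂ))) r volume
        ≤ ENNReal.ofReal T * ENNReal.ofReal (η / T) := mul_le_mul_right h5 _
      _ = ENNReal.ofReal η := by
          rw [← ENNReal.ofReal_mul hT.le]
          congr 1
          field_simp

theorem phases {N : ℕ} {U : Set (E 2)} (hU : Domain N U) : Phases U := by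
  intro Ψ hΨ p₀ hp₀ η hη u hu hu1
  obtain ⟨k, hk, h1, h2⟩ := shifts hU Ψ hΨ p₀ hp₀ η hη 1 one_pos
    (fun x => Complex.arg (u x) / (2 * Real.pi)) ((Complex.measurable_arg.comp hu).div_const _)
  refine ⟨_, h1, h2, fun x => ?_⟩
  have h3 : (2 * Real.pi * ((Complex.arg (u x) / (2 * Real.pi) + k x * 1 : ℝ) : ℂ) * Complex.I) =
      Complex.arg (u x) * Complex.I + k x * (2 * Real.pi * Complex.I) := by
    have : (Real.pi : ℂ) ≠ 0 := by exact_mod_cast Real.pi_ne_zero
    push_cast
    field_simp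
  rw [h3, Complex.exp_add, Complex.exp_int_mul_two_pi_mul_I, mul_one]
  have h4 := Complex.norm_mul_exp_arg_mul_I (u x)
  rw [hu1 x] at h4
  simpa using h4.symm

theorem residues {N : ℕ} {U : Set (E 2)} (hU : Domain N U) : Residues U := by
  intro Ψ hΨ p₀ hp₀ η hη m hm j hj
  have hjR : Measurable fun x => ((j x : ℤ) : ℝ) := measurable_from_top.comp hj
  obtain ⟨k, hk, h1, h2⟩ := shifts hU Ψ hΨ p₀ hp₀ η hη m (by exact_mod_cast hm)
    (fun x => (j x : ℝ)) hjR
  have e1 : (fun x => (j x : ℝ) + k x * (m : ℝ)) = fun x => ((j x + k x * m : ℤ) : ℝ) := by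
    funext x
    push_cast
    ring
  rw [e1] at h1 h2
  refine ⟨fun x => j x + k x * m, ?_, fun x => ?_, h1, h2⟩
  · exact hj.add (hk.mul_const _)
  · exact (Int.modEq_iff_dvd.2 ⟨-k x, by ring⟩)

theorem real_criterion {N : ℕ} {U : Set (E 2)} (hU : Domain N U) : RealCriterion U := by
  rintro Ψ hΨ F hF ⟨M, hM⟩ T hT hper ⟨s, t, hst⟩ p hp
  constructor
  · rintro ⟨C, -, h⟩ f hf
    exact (h _ (hF.comp hf.1) M fun x => hM _).1
  · intro h
    refine Pool.Agent.X331.SP.Para.ext_of (dom hU) p hp (F s) (F t) hst fun A hA => ?_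
    classical
    have hf : Measurable fun x : E 2 => if x ∈ A then s else t :=
      Measurable.ite hA measurable_const measurable_const
    obtain ⟨k, -, h1, -⟩ := shifts hU Ψ hΨ p hp 1 one_pos T hT _ hf
    have hP : Function.Periodic F T := hper
    refine ⟨_, fun x hx => ?_, fun x hx => ?_, h _ h1⟩
    · have h2 := hP.int_mul (k x) s
      simp only [if_pos hx]
      exact h2
    · have h2 := hP.int_mul (k x) t
      simp only [if_neg hx]
      exact h2

theorem integer_criterion {N : ℕ} {U : Set (E 2)} (hU : Domain N U) : IntegerCriterion U := by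
  rintro Ψ hΨ F m hm hper ⟨i, j, hij⟩ p hp
  have hP : Function.Periodic F (m : ℤ) := hper
  have hmod : ∀ a b : ℤ, a ≡ b [ZMOD m] → F a = F b := by
    intro a b hab
    obtain ⟨c, hc⟩ := Int.modEq_iff_dvd.1 hab
    have h1 : b = a + c * m := by linarith
    rw [h1]
    have h2 := hP.int_mul c a
    simpa using h2.symm
  constructor
  · rintro ⟨C, -, h⟩ k hk _
    refine (h _ ((measurable_from_top (f := F)).comp hk)
      (∑ r ∈ Finset.range m, ‖F r‖) fun x => ?_).1
    have h1 : F (k x) = F ((k x % m).toNat : ℕ) := by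
      refine hmod _ _ ?_
      have h2 : 0 ≤ k x % m := Int.emod_nonneg _ (by exact_mod_cast hm.ne')
      rw [Int.toNat_of_nonneg h2]
      exact (Int.mod_modEq _ _).symm
    change ‖F (k x)‖ ≤ _
    rw [h1]
    refine Finset.single_le_sum (f := fun r : ℕ => ‖F r‖) (fun _ _ => norm_nonneg _) ?_
    rw [Finset.mem_range]
    have h3 : k x % m < m := Int.emod_lt_of_pos _ (by exact_mod_cast hm)
    have h2 : 0 ≤ k x % m := Int.emod_nonneg _ (by exact_mod_cast hm.ne')
    omega
  · intro h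
    refine Pool.Agent.X331.SP.Para.ext_of (dom hU) p hp (F i) (F j) hij fun A hA => ?_
    classical
    have hf : Measurable fun x : E 2 => if x ∈ A then i else j :=
      Measurable.ite hA measurable_const measurable_const
    obtain ⟨k, hk, h1, h2, -⟩ := residues hU Ψ hΨ p hp 1 one_pos m hm _ hf
    refine ⟨fun x => F (k x), fun x hx => ?_, fun x hx => ?_, h k hk h2⟩
    · have h3 := h1 x
      rw [if_pos hx] at h3
      exact hmod _ _ h3
    · have h3 := h1 x
      rw [if_neg hx] at h3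
      exact hmod _ _ h3

/-- **Theorem.** The lifting theorems and the two criteria, for all domains `U`. -/
theorem result (N : ℕ) (U : Set (E 2)) (hU : Domain N U) :
    Shifts U ∧ Phases U ∧ Residues U ∧ RealCriterion U ∧ IntegerCriterion U :=
  ⟨shifts hU, phases hU, residues hU, real_criterion hU, integer_criterion hU⟩

end Pool.Agent.Results.MP_5ab805_an.IntegerShifts
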