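import Pool.Agent.X92.Sec27

/-!
# The extension inequality for functions with one derivative along the rays from a point

Full range `q > 3`: `‖E f‖_q ≤ C (‖f‖_q + ‖D f‖_{L^q(Q)})` where `Q` is an open square with centre
`a`, `f` vanishes outside `Q` (with a possible jump at the boundary of `Q`) and
`D f(x) = (x - a) · ∇ f(x)` is the derivative of `f` along the rays from `a`; no regularity in the
angular variable. In particular for all functions that are homogeneous about `a` in `Q`, of any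
complex degree.
-/

open MeasureTheory Set
open scoped ENNReal

noncomputable section

namespace Pool.Agent.Results.MP_5ab805_an.SectorialFunctions

/-- The Fourier extension operator of the paraboloid `ξ₃ = x₁² + x₂²`:
`E f(ξ) = ∫ e^{-i Φ(x)·ξ} f(x) dx`, `Φ(x) = (x₁, x₂, x₁² + x₂²)`. -/
def extOp (f : ℝ × ℝ → ℂ) (ξ : ℝ × ℝ × ℝ) : ℂ :=
  ∫ x : ℝ × ℝ, Complex.exp (-(Complex.I *
    ((x.1 * ξ.1 + x.2 * ξ.2.1 + (x.1 ^ 2 + x.2 ^ 2) * ξ.2.2 : ℝ) : ℂ))) * f x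

/-- The open square with centre `a` and side `2`. -/
def square (a : ℝ × ℝ) : Set (ℝ × ℝ) := {x | |x.1 - a.1| < 1 ∧ |x.2 - a.2| < 1}

/-- `E` is bounded on functions with one derivative along the rays from `a`. -/
theorem result (q : ℝ) (hq : 3 < q) :
    (∃ C : ℝ, 0 < C ∧ ∀ (a : ℝ × ℝ) (f D : ℝ × ℝ → ℂ), Measurable f → Measurable D →
      (∀ x, x ∉ square a → f x = 0) →
      (∀ x ∈ square a, x ≠ a → HasDerivAt (fun l : ℝ => f (a + l • (x - a))) (D x) 1) →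
      ∫⁻ ξ : ℝ × ℝ × ℝ, ‖extOp f ξ‖ₑ ^ q ≤
        ENNReal.ofReal C * ((∫⁻ x : ℝ × ℝ, ‖f x‖ₑ ^ q) + ∫⁻ x in square a, ‖D x‖ₑ ^ q)) ∧
    (∃ C : ℝ, 0 < C ∧ ∀ (a : ℝ × ℝ) (z : ℂ) (f : ℝ × ℝ → ℂ), Measurable f →
      (∀ x, x ∉ square a → f x = 0) →
      (∀ x ∈ square a, x ≠ a → ∀ l : ℝ, 0 < l → l ≤ 1 → f (a + l • (x - a)) = (l : ℂ) ^ z * f x) →
      ∫⁻ ξ : ℝ × ℝ × ℝ, ‖extOp f ξ‖ₑ ^ q ≤
        ENNReal.ofReal (C * (1 + ‖z‖ ^ q)) * ∫⁻ x : ℝ × ℝ, ‖f x‖ₑ ^ q) := by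
  have key : ∀ f : ℝ × ℝ → ℂ, Measurable f → ∫⁻ ξ : ℝ × ℝ × ℝ, ‖extOp f ξ‖ₑ ^ q = X92.Sec.Psi q f := by
    intro f hf
    have e : ∀ ξ, extOp f ξ = X92.Ext.EL 1 f ξ := by
      intro ξ
      unfold extOp X92.Ext.EL
      simp only [one_mul]
    simp_rw [e]
    rw [X92.Ext.norm_EL q 1 f hf]
    unfold X92.Sec.Psi
    simp only [one_mul]
  refine ⟨?_, ?_⟩
  · obtain ⟨C, hC, h⟩ := X92.Sec.squareA q hq
    refine ⟨C, hC, ?_⟩
    intro a f D hf hD h0 hfD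
    rw [key f hf]
    exact h a f D hf hD h0 hfD
  · obtain ⟨C, hC, h⟩ := X92.Sec.homog q hq
    refine ⟨C, hC, ?_⟩
    intro a z f hf h0 hh
    rw [key f hf]
    exact h a z f hf h0 hh

end Pool.Agent.Results.MP_5ab805_an.SectorialFunctions
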